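import Pool.Agent.H.MP_15f3fd_al.C

namespace Pool.Agent.Results.MP_15f3fd_al.Yes

open MvPolynomial Classical

section
variable (k : Type) [Field k] {n : ℕ} (Γ : SimpleGraph (Fin n))

/-- non-edges, as increasing pairs -/
abbrev NonEdge := {p : Fin n × Fin n // p.1 < p.2 ∧ ¬ Γ.Adj p.1 p.2}

/-- increasing triples -/
abbrev Triple (n : ℕ) := {t : Fin n × Fin n × Fin n // t.1 < t.2.1 ∧ t.2.1 < t.2.2}

/-- the presentation matrix of the Koszul module -/
noncomputable def pres : Matrix (NonEdge Γ) (Triple n) (MvPolynomial (Fin n) k) :=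
  Matrix.of fun p t => (if (t.1.1, t.1.2.1) = p.1 then X t.1.2.2 else 0) -
    (if (t.1.1, t.1.2.2) = p.1 then X t.1.2.1 else 0) +
    (if (t.1.2.1, t.1.2.2) = p.1 then X t.1.1 else 0)

/-- the ideal of maximal minors -/
noncomputable def fitt : Ideal (MvPolynomial (Fin n) k) :=
  Ideal.span {d | ∃ f : NonEdge Γ → Triple n, f.Injective ∧ d = ((pres k Γ).submatrix id f).det}

/-- the spanning tree ideal -/
noncomputable def treeIdeal : Ideal (MvPolynomial (Fin n) k) :=
  Ideal.span {m | ∃ T : SimpleGraph (Fin n), T ≤ Γ ∧ T.IsTree ∧ m = ∏ i, X i ^ (T.degree i - 1)}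

end

open Pool.Agent.H.MP_15f3fd_al Matrix

theorem pres_eq (k : Type) [Field k] {n : ℕ} (Γ : SimpleGraph (Fin n)) (p : NonEdge Γ)
    (t : Triple n) : pres k Γ p t = At X p.1.1 p.1.2 t.1 := by
  obtain ⟨⟨i, j⟩, hij, -⟩ := p
  obtain ⟨⟨a, b, c⟩, hab, hbc⟩ := t
  simp only at hij hab hbc
  have h : ∀ u v : Fin n, u < v → ¬ (v = i ∧ u = j) := by
    rintro u v h ⟨rfl, rfl⟩
    exact lt_asymm h hij
  simp [pres, At, e, h a b hab, h b c hbc, h a c (hab.trans hbc)]

theorem result (k : Type) [Field k] [CharZero k] (n : ℕ) (hn : 3 ≤ n) (Γ : SimpleGraph (Fin n))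
    (hE : n - 2 ≤ Fintype.card (NonEdge Γ)) :
    fitt k Γ = treeIdeal k Γ * Ideal.span (Set.range X) ^ (Fintype.card (NonEdge Γ) - (n - 2)) := by
  set d := Fintype.card (NonEdge Γ) - (n - 2) with hd
  have : Nontrivial (Fin n) := Fin.nontrivial_iff_two_le.2 (by omega)
  have hk := key Γ d (by show Fintype.card (NonEdge Γ) + 2 = n + d; omega)
  have hdet : ∀ (f : NE Γ → Fin n × Fin n × Fin n) (m : Mo n), tM f = rM Γ * m →
      (of fun r c : NE Γ => At (X : Fin n → MvPolynomial (Fin n) k) r.1.1 r.1.2 (f c)).det =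
        (cf Γ f : MvPolynomial (Fin n) k) * monomialOneHom k (Fin n) m := by
    intro f m hm
    have h1 := det_scale (X : Fin n → MvPolynomial (Fin n) k) (fun r : NE Γ => r.1.1)
      (fun r => r.1.2) f
    have h2 := congrArg (monomialOneHom k (Fin n)) hm
    simp only [tM, rM, map_mul, map_prod, phi_g] at h2
    refine mul_left_cancel₀ (Finset.prod_ne_zero_iff.2 fun r : NE Γ => fun _ =>
      mul_ne_zero (X_ne_zero r.1.1) (X_ne_zero r.1.2)) (h1.trans ?_)
    rw [h2, cf]
    ring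
  apply le_antisymm
  · rw [fitt, Ideal.span_le]
    rintro _ ⟨f, -, rfl⟩
    have h0 : (pres k Γ).submatrix id f = of fun r c : NE Γ => At X r.1.1 r.1.2 (f c).1 := by
      exact Matrix.ext fun r c => pres_eq k Γ r (f c)
    rw [h0]
    by_cases hc : cf Γ (fun c => (f c).1) = 0
    · have h1 := det_scale (X : Fin n → MvPolynomial (Fin n) k) (fun r : NE Γ => r.1.1)
        (fun r => r.1.2) fun c => (f c).1
      rw [cf] at hc
      rw [hc, Int.cast_zero, mul_zero] at h1
      rw [(mul_eq_zero.1 h1).resolve_left (Finset.prod_ne_zero_iff.2 fun r : NE Γ => fun _ =>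
        mul_ne_zero (X_ne_zero r.1.1) (X_ne_zero r.1.2))]
      exact Ideal.zero_mem _
    · obtain ⟨T, h, h1, h2, h3⟩ := (hk _).1 ⟨_, hc, rfl⟩
      rw [hdet _ _ h3.symm]
      refine Ideal.mul_mem_left _ _ ?_
      simp only [map_mul, map_prod, map_pow, phi_g]
      refine Ideal.mul_mem_mul (Ideal.subset_span ⟨T, h1, h2, rfl⟩) ?_
      have := Ideal.prod_mem_prod (s := Finset.univ) (I := fun _ : Fin d =>
        Ideal.span (Set.range (X : Fin n → MvPolynomial (Fin n) k))) (x := fun j => X (h j))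
        fun j _ => Ideal.subset_span ⟨_, rfl⟩
      simpa using this
  · rw [treeIdeal, Ideal.span, Ideal.span, Submodule.span_pow, Submodule.span_mul_span,
      Submodule.span_le]
    rintro _ ⟨_, ⟨T, h1, h2, rfl⟩, u, hu, rfl⟩
    obtain ⟨w, hw, rfl⟩ := Set.mem_pow_iff_prod.1 hu
    choose h hh using hw
    obtain ⟨f, h3, h4⟩ := (hk _).2 ⟨T, h, h1, h2, rfl⟩
    have h5 := hdet f _ h4
    simp only [map_mul, map_prod, map_pow, phi_g, hh] at h5
    let t0 : Triple n := ⟨(⟨0, by omega⟩, ⟨1, by omega⟩, ⟨2, by omega⟩), by simp, by simp⟩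
    choose s c hs using fun r => At_sort (X : Fin n → MvPolynomial (Fin n) k) t0 (f r)
    have h6 : (of fun r c : NE Γ => At (X : Fin n → MvPolynomial (Fin n) k) r.1.1 r.1.2 (f c)).det
        ∈ fitt k Γ := by
      simp only [hs, ← pres_eq k Γ]
      refine (det_mul_row c ((pres k Γ).submatrix id s)).symm ▸ Ideal.mul_mem_left _ _ ?_
      by_cases hi : Function.Injective s
      · exact Ideal.subset_span ⟨s, hi, rfl⟩
      · obtain ⟨a, b, h7, h8⟩ := Function.not_injective_iff.1 hi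
        rw [det_zero_of_column_eq h8 fun r => by simp [h7]]
        exact Ideal.zero_mem _
    rw [h5] at h6
    have h7 := Ideal.mul_mem_left _ (C ((cf Γ f : k)⁻¹)) h6
    rwa [← mul_assoc, ← map_intCast (C : k →+* MvPolynomial (Fin n) k), ← map_mul,
      inv_mul_cancel₀ (Int.cast_ne_zero.2 h3), map_one, one_mul] at h7

end Pool.Agent.Results.MP_15f3fd_al.Yes
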